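import Pool.Agent.U516.SG.Spec
import Pool.Agent.U516.RD.Cls

/-!
Package CHB of project SG: character ratios of `A_n` are at most `exp (- b * support / n)`.
Averaging over a conjugacy class multiplies an irreducible character by the character ratio
(Schur), and acts on the number of fixed points as an affine map with factor
`1 - support / (n - 1)`.
-/

namespace SG516.CHB
open RC14 Finset
open scoped InnerProductSpace

lemma exists_map2 {n : ℕ} (hn : 4 ≤ n) {a b c d : Fin n} (hab : a ≠ b) (hcd : c ≠ d) :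
    ∃ g : Alt n, (g : Equiv.Perm (Fin n)) a = c ∧ (g : Equiv.Perm (Fin n)) b = d := by
  have h1 : MulAction.IsMultiplyPretransitive (alternatingGroup (Fin n)) (Fin n)
      (Nat.card (Fin n) - 2) := alternatingGroup.isMultiplyPretransitive (Fin n)
  have h2 : MulAction.IsMultiplyPretransitive (alternatingGroup (Fin n)) (Fin n) 2 :=
    MulAction.isMultiplyPretransitive_of_le (n := Nat.card (Fin n) - 2) (by simp; omega) (by simp)
  rw [MulAction.is_two_pretransitive_iff] at h2
  obtain ⟨g, h3, h4⟩ := h2 hab hcd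
  exact ⟨g, h3, h4⟩

lemma cnt2 {n : ℕ} (hn : 4 ≤ n) {a c e d : Fin n} (hac : a ≠ c) (hed : e ≠ d) :
    (n : ℝ) * (n - 1) * #{h : Alt n | (h : Equiv.Perm (Fin n)) a = e ∧
      (h : Equiv.Perm (Fin n)) c = d} = Fintype.card (Alt n) := by
  classical
  have hconst : ∀ p ∈ (univ : Finset (Fin n)).offDiag,
     #{h : Alt n | ((h : Equiv.Perm (Fin n)) a, (h : Equiv.Perm (Fin n)) c) = p} =
      #{h : Alt n | (h : Equiv.Perm (Fin n)) a = e ∧ (h : Equiv.Perm (Fin n)) c = d} := by
    intro p hp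
    obtain ⟨g, hg1, hg2⟩ := exists_map2 hn (Finset.mem_offDiag.1 hp).2.2 hed
    refine Finset.card_bij (fun h _ => g * h) ?_ ?_ ?_
    · intro h hh
      simp only [mem_filter, mem_univ, true_and] at hh ⊢
      rw [← hh] at hg1 hg2
      exact ⟨hg1, hg2⟩
    · intro h _ h' _ hh
      exact mul_left_cancel hh
    · intro h hh
      refine ⟨g⁻¹ * h, ?_, by group⟩
      simp only [mem_filter, mem_univ, true_and] at hh ⊢
      have e1 : ((g⁻¹ * h : Alt n) : Equiv.Perm (Fin n)) a = p.1 := by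
        change ((g : Equiv.Perm (Fin n))⁻¹) ((h : Equiv.Perm (Fin n)) a) = p.1
        rw [hh.1, ← hg1]; exact Equiv.symm_apply_apply _ _
      have e2 : ((g⁻¹ * h : Alt n) : Equiv.Perm (Fin n)) c = p.2 := by
        change ((g : Equiv.Perm (Fin n))⁻¹) ((h : Equiv.Perm (Fin n)) c) = p.2
        rw [hh.2, ← hg2]; exact Equiv.symm_apply_apply _ _
      rw [e1, e2]
  have h1 := Finset.card_eq_sum_card_fiberwise
    (f := fun h : Alt n => ((h : Equiv.Perm (Fin n)) a, (h : Equiv.Perm (Fin n)) c))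
    (s := univ) (t := (univ : Finset (Fin n)).offDiag) (by
      intro h _
      simp only [Finset.coe_offDiag, Finset.coe_univ, Set.mem_offDiag, Set.mem_univ, true_and]
      intro hh
      exact hac ((h : Equiv.Perm (Fin n)).injective hh))
  rw [Finset.sum_congr rfl hconst, Finset.sum_const, Finset.offDiag_card, Finset.card_univ,
    Finset.card_univ, Fintype.card_fin, smul_eq_mul] at h1
  rw [h1]
  have h2 : ((n * n - n : ℕ) : ℝ) = n * (n - 1) := by
    rw [Nat.cast_sub (Nat.le_mul_self n)]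
    push_cast
    ring
  push_cast [← h2]
  rfl

lemma cnt1 {n : ℕ} (hn : 4 ≤ n) (a e : Fin n) :
    (n : ℝ) * #{h : Alt n | (h : Equiv.Perm (Fin n)) a = e} = Fintype.card (Alt n) := by
  classical
  have hconst : ∀ p ∈ (univ : Finset (Fin n)),
     #{h : Alt n | (h : Equiv.Perm (Fin n)) a = p} =
      #{h : Alt n | (h : Equiv.Perm (Fin n)) a = e} := by
    intro p _
    have hg : ∃ g : Alt n, (g : Equiv.Perm (Fin n)) p = e := by
      by_cases hpe : p = e
      · exact ⟨1, by simpa using hpe⟩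
      · obtain ⟨g, hg, _⟩ := exists_map2 hn (a := p) (b := e) (c := e) (d := p) hpe (Ne.symm hpe)
        exact ⟨g, hg⟩
    obtain ⟨g, hg1⟩ := hg
    refine Finset.card_bij (fun h _ => g * h) ?_ ?_ ?_
    · intro h hh
      simp only [mem_filter, mem_univ, true_and] at hh ⊢
      rw [← hh] at hg1
      exact hg1
    · intro h _ h' _ hh
      exact mul_left_cancel hh
    · intro h hh
      refine ⟨g⁻¹ * h, ?_, by group⟩
      simp only [mem_filter, mem_univ, true_and] at hh ⊢
      change ((g : Equiv.Perm (Fin n))⁻¹) ((h : Equiv.Perm (Fin n)) a) = p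
      rw [hh, ← hg1]; exact Equiv.symm_apply_apply _ _
  have h1 := Finset.card_eq_sum_card_fiberwise
    (f := fun h : Alt n => (h : Equiv.Perm (Fin n)) a)
    (s := univ) (t := (univ : Finset (Fin n))) (by intro h _; simp)
  rw [Finset.sum_congr rfl hconst, Finset.sum_const, Finset.card_univ,
    Finset.card_univ, Fintype.card_fin, smul_eq_mul] at h1
  rw [h1]
  push_cast
  rfl

/-- the number of `h` with `v (h a) = h c` -/
lemma cntW {n : ℕ} (hn : 4 ≤ n) (v : Alt n) (a c : Fin n) :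
    (#{h : Alt n | (v : Equiv.Perm (Fin n)) ((h : Equiv.Perm (Fin n)) a) =
      (h : Equiv.Perm (Fin n)) c} : ℝ) =
    Fintype.card (Alt n) * (if a = c then
      1 - (#(v : Equiv.Perm (Fin n)).support : ℝ) / n
      else (#(v : Equiv.Perm (Fin n)).support : ℝ) / (n * (n - 1))) := by
  classical
  have hn0 : (0 : ℝ) < n := by
    have : (4 : ℝ) ≤ n := by exact_mod_cast hn
    linarith
  have hn1 : (0 : ℝ) < (n : ℝ) - 1 := by
    have : (4 : ℝ) ≤ n := by exact_mod_cast hn
    linarith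
  have h1 := Finset.card_eq_sum_card_fiberwise
    (f := fun h : Alt n => (h : Equiv.Perm (Fin n)) a)
    (s := univ.filter fun h : Alt n => (v : Equiv.Perm (Fin n)) ((h : Equiv.Perm (Fin n)) a) =
      (h : Equiv.Perm (Fin n)) c) (t := (univ : Finset (Fin n))) (by intro h _; simp)
  rw [h1]
  simp only [Finset.filter_filter]
  rw [Nat.cast_sum]
  by_cases hac : a = c
  · subst hac
    rw [if_pos rfl]
    have h2 : ∀ e ∈ (univ : Finset (Fin n)),
        (#{h : Alt n | (v : Equiv.Perm (Fin n)) ((h : Equiv.Perm (Fin n)) a) =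
        (h : Equiv.Perm (Fin n)) a ∧ (h : Equiv.Perm (Fin n)) a = e} : ℝ) =
        if e ∈ (v : Equiv.Perm (Fin n)).support then 0 else (Fintype.card (Alt n) : ℝ) / n := by
      intro e _
      split_ifs with he
      · rw [Equiv.Perm.mem_support] at he
        rw [Nat.cast_eq_zero, Finset.card_eq_zero, Finset.filter_eq_empty_iff]
        rintro h _ ⟨h3, h4⟩
        rw [h4] at h3
        exact he h3
      · rw [Equiv.Perm.mem_support, not_not] at he
        rw [← cnt1 hn a e, mul_div_cancel_left₀ _ hn0.ne']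
        congr 2
        ext h
        simp only [mem_filter, mem_univ, true_and]
        constructor
        · exact fun h3 => h3.2
        · intro h3
          refine ⟨?_, h3⟩
          rw [h3, he]
    rw [Finset.sum_congr rfl h2]
    have h3 : ∀ e : Fin n, (if e ∈ (v : Equiv.Perm (Fin n)).support then (0 : ℝ) else
        (Fintype.card (Alt n) : ℝ) / n) = (Fintype.card (Alt n) : ℝ) / n -
        if e ∈ (v : Equiv.Perm (Fin n)).support then (Fintype.card (Alt n) : ℝ) / n else 0 := by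
      intro e
      split_ifs <;> simp
    simp only [h3]
    rw [Finset.sum_sub_distrib, Finset.sum_const, Finset.sum_ite_mem, Finset.univ_inter,
      Finset.sum_const, Finset.card_univ, Fintype.card_fin, nsmul_eq_mul, nsmul_eq_mul]
    field_simp
  · rw [if_neg hac]
    have h2 : ∀ e ∈ (univ : Finset (Fin n)),
        (#{h : Alt n | (v : Equiv.Perm (Fin n)) ((h : Equiv.Perm (Fin n)) a) =
        (h : Equiv.Perm (Fin n)) c ∧ (h : Equiv.Perm (Fin n)) a = e} : ℝ) =
        if e ∈ (v : Equiv.Perm (Fin n)).support then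
          (Fintype.card (Alt n) : ℝ) / (n * (n - 1)) else 0 := by
      intro e _
      split_ifs with he
      · rw [Equiv.Perm.mem_support] at he
        have h5 := cnt2 hn hac (Ne.symm he)
        rw [← h5, mul_div_cancel_left₀ _ (mul_pos hn0 hn1).ne']
        congr 2
        ext h
        simp only [mem_filter, mem_univ, true_and]
        constructor
        · rintro ⟨h3, h4⟩
          rw [h4] at h3
          exact ⟨h4, h3.symm⟩
        · rintro ⟨h3, h4⟩
          rw [h3, h4]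
          exact ⟨rfl, rfl⟩
      · rw [Equiv.Perm.mem_support, not_not] at he
        rw [Nat.cast_eq_zero, Finset.card_eq_zero, Finset.filter_eq_empty_iff]
        rintro h _ ⟨h3, h4⟩
        rw [h4, he, ← h4] at h3
        exact hac ((h : Equiv.Perm (Fin n)).injective h3)
    rw [Finset.sum_congr rfl h2, Finset.sum_ite_mem, Finset.univ_inter,
      Finset.sum_const, nsmul_eq_mul]
    field_simp


/-- the average of the number of fixed points over a translate of a conjugacy class -/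
lemma sum_nfix {n : ℕ} (hn : 4 ≤ n) (v g : Alt n) :
    ∑ h : Alt n, (nfix ((g * (h * v * h⁻¹) : Alt n) : Equiv.Perm (Fin n)) : ℝ) =
      Fintype.card (Alt n) * ((1 - (#(v : Equiv.Perm (Fin n)).support : ℝ) / (n - 1)) *
        nfix (g : Equiv.Perm (Fin n)) + (#(v : Equiv.Perm (Fin n)).support : ℝ) / (n - 1)) := by
  classical
  have hn4 : (4 : ℝ) ≤ n := by exact_mod_cast hn
  have hn0 : (0 : ℝ) < n := by linarith
  have hn1 : (0 : ℝ) < (n : ℝ) - 1 := by linarith
  have h1 : ∀ h : Alt n, (nfix ((g * (h * v * h⁻¹) : Alt n) : Equiv.Perm (Fin n)) : ℝ) =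
      ∑ a : Fin n, if (v : Equiv.Perm (Fin n)) (((h⁻¹ : Alt n) : Equiv.Perm (Fin n)) a) =
        ((h⁻¹ : Alt n) : Equiv.Perm (Fin n)) (((g⁻¹ : Alt n) : Equiv.Perm (Fin n)) a)
        then (1 : ℝ) else 0 := by
    intro h
    unfold nfix
    rw [Finset.sum_boole]
    congr 2
    ext a
    simp only [mem_filter, mem_univ, true_and]
    change (g : Equiv.Perm (Fin n)) ((h : Equiv.Perm (Fin n)) ((v : Equiv.Perm (Fin n))
      ((h : Equiv.Perm (Fin n)).symm a))) = a ↔ (v : Equiv.Perm (Fin n))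
        ((h : Equiv.Perm (Fin n)).symm a) = (h : Equiv.Perm (Fin n)).symm
          ((g : Equiv.Perm (Fin n)).symm a)
    rw [Equiv.eq_symm_apply, Equiv.eq_symm_apply]
  simp only [h1]
  rw [Finset.sum_comm]
  have h2 : ∀ a : Fin n, (∑ h : Alt n, if (v : Equiv.Perm (Fin n))
      (((h⁻¹ : Alt n) : Equiv.Perm (Fin n)) a) =
        ((h⁻¹ : Alt n) : Equiv.Perm (Fin n)) (((g⁻¹ : Alt n) : Equiv.Perm (Fin n)) a)
        then (1 : ℝ) else 0) =
      Fintype.card (Alt n) * (if a = ((g⁻¹ : Alt n) : Equiv.Perm (Fin n)) a then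
      1 - (#(v : Equiv.Perm (Fin n)).support : ℝ) / n
      else (#(v : Equiv.Perm (Fin n)).support : ℝ) / (n * (n - 1))) := by
    intro a
    rw [← cntW hn v a (((g⁻¹ : Alt n) : Equiv.Perm (Fin n)) a)]
    refine (Equiv.sum_comp (Equiv.inv (Alt n)) (fun h : Alt n => if (v : Equiv.Perm (Fin n))
      ((h : Equiv.Perm (Fin n)) a) =
        (h : Equiv.Perm (Fin n)) (((g⁻¹ : Alt n) : Equiv.Perm (Fin n)) a)
        then (1 : ℝ) else 0)).trans ?_
    rw [Finset.sum_boole]
  simp only [h2]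
  rw [← Finset.mul_sum]
  congr 1
  rw [Finset.sum_ite, Finset.sum_const, Finset.sum_const, nsmul_eq_mul, nsmul_eq_mul]
  have h3 : #(univ.filter fun a : Fin n => a = ((g⁻¹ : Alt n) : Equiv.Perm (Fin n)) a) =
      nfix (g : Equiv.Perm (Fin n)) := by
    unfold nfix
    congr 1
    ext a
    simp only [mem_filter, mem_univ, true_and]
    change a = (g : Equiv.Perm (Fin n)).symm a ↔ _
    rw [Equiv.eq_symm_apply]
  have h4 : (#(univ.filter fun a : Fin n => ¬ a = ((g⁻¹ : Alt n) : Equiv.Perm (Fin n)) a) : ℝ) =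
      n - nfix (g : Equiv.Perm (Fin n)) := by
    have h5 := Finset.card_filter_add_card_filter_not (s := (univ : Finset (Fin n)))
      (fun a : Fin n => a = ((g⁻¹ : Alt n) : Equiv.Perm (Fin n)) a)
    rw [h3, Finset.card_univ, Fintype.card_fin] at h5
    have h6 := congrArg (Nat.cast (R := ℝ)) h5
    rw [Nat.cast_add] at h6
    linarith
  rw [h4, h3]
  field_simp
  ring

section rep
variable {G : Type} [Group G] [Fintype G]
variable {V : Type} [NormedAddCommGroup V] [InnerProductSpace ℂ V] [FiniteDimensional ℂ V]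

omit [Fintype G] in
lemma norm_chr_le (ρ : G →* (V ≃ₗᵢ[ℂ] V)) (g : G) : ‖chr ρ g‖ ≤ Module.finrank ℂ V := by
  unfold chr
  rw [LinearMap.trace_eq_sum_inner (op ρ g) (stdOrthonormalBasis ℂ V)]
  refine (norm_sum_le _ _).trans ?_
  refine (Finset.sum_le_sum (g := fun _ => (1 : ℝ)) fun i _ => ?_).trans (by simp)
  refine (norm_inner_le_norm _ _).trans ?_
  rw [op_apply, (ρ g).norm_map, (stdOrthonormalBasis ℂ V).norm_eq_one i, one_mul]

/-- Schur's lemma for the class sum of `v` -/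
lemma schur (ρ : G →* (V ≃ₗᵢ[ℂ] V)) (hirr : Irr ρ ⊤) (v g : G) :
    (Module.finrank ℂ V : ℂ) * ∑ h : G, chr ρ (g * (h * v * h⁻¹)) =
      Fintype.card G * chr ρ v * chr ρ g := by
  classical
  set B : Module.End ℂ V := ∑ h : G, op ρ h * op ρ v * op ρ h⁻¹ with hB
  have hcomm : ∀ k : G, op ρ k * B = B * op ρ k := by
    intro k
    rw [hB, Finset.mul_sum, Finset.sum_mul]
    rw [← Equiv.sum_comp (Equiv.mulLeft k)
      (fun h => op ρ h * op ρ v * op ρ h⁻¹ * op ρ k)]
    refine Finset.sum_congr rfl fun h _ => ?_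
    rw [Equiv.coe_mulLeft, ← op_mul, ← op_mul, ← op_mul, ← op_mul, ← op_mul, ← op_mul]
    congr 1
    group
  have hne : Nontrivial V := by
    by_contra hcon
    rw [not_nontrivial_iff_subsingleton] at hcon
    exact hirr.1 (Subsingleton.elim _ _)
  obtain ⟨μ, hμ⟩ := Module.End.exists_eigenvalue B
  obtain ⟨w, hw⟩ := hμ.exists_hasEigenvector
  have hU : Inv ρ (LinearMap.ker (B - μ • (1 : Module.End ℂ V))) := by
    intro k u hu
    rw [LinearMap.mem_ker, LinearMap.sub_apply, sub_eq_zero] at hu ⊢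
    have h1 := congrArg (fun F : Module.End ℂ V => F u) (hcomm k)
    change op ρ k (B u) = B (op ρ k u) at h1
    change B (op ρ k u) = _
    rw [← h1, hu]
    simp
  have hU2 := (hirr.2.2 _ le_top hU).resolve_left (by
    intro h
    have h1 : w ∈ LinearMap.ker (B - μ • (1 : Module.End ℂ V)) := by
      rw [LinearMap.mem_ker, LinearMap.sub_apply, sub_eq_zero, hw.apply_eq_smul]
      simp
    rw [h, Submodule.mem_bot] at h1
    exact hw.2 h1)
  have hBμ : B = μ • (1 : Module.End ℂ V) := by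
    rw [← sub_eq_zero]
    exact LinearMap.ker_eq_top.1 hU2
  have htr : (Fintype.card G : ℂ) * chr ρ v = μ * Module.finrank ℂ V := by
    have h1 : LinearMap.trace ℂ V B = μ * Module.finrank ℂ V := by
      rw [hBμ, map_smul, LinearMap.trace_one, smul_eq_mul]
    rw [← h1, hB, map_sum]
    have h2 : ∀ h : G, LinearMap.trace ℂ V (op ρ h * op ρ v * op ρ h⁻¹) = chr ρ v := by
      intro h
      rw [LinearMap.trace_mul_comm, ← mul_assoc, ← op_mul, inv_mul_cancel, op_one, one_mul]
      rfl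
    rw [Finset.sum_congr rfl fun h _ => h2 h, Finset.sum_const, Finset.card_univ, nsmul_eq_mul]
  have h3 : ∑ h : G, chr ρ (g * (h * v * h⁻¹)) = μ * chr ρ g := by
    have h4 : ∑ h : G, chr ρ (g * (h * v * h⁻¹)) = LinearMap.trace ℂ V (op ρ g * B) := by
      rw [hB, Finset.mul_sum, map_sum]
      refine Finset.sum_congr rfl fun h _ => ?_
      unfold chr
      rw [op_mul, op_mul, op_mul]
    rw [h4, hBμ, mul_smul_comm, mul_one, map_smul, smul_eq_mul]
    rfl
  rw [h3, htr]
  ring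

end rep

lemma pow_ratio {n : ℕ} (hn : 4 ≤ n) (v : Alt n) (F : Alt n → ℝ) (t α β : ℝ) (ht : 0 ≤ t)
    (hβ : 0 ≤ β)
    (h0 : ∀ g : Alt n, F g ≤ α + β * nfix (g : Equiv.Perm (Fin n)))
    (hC : ∀ g : Alt n, Fintype.card (Alt n) * (t * F g) ≤ ∑ h : Alt n, F (g * (h * v * h⁻¹)))
    (q : ℝ) (hq0 : 0 ≤ q)
    (hq : 1 - (#(v : Equiv.Perm (Fin n)).support : ℝ) / (n - 1) ≤ q) (N : ℕ) :
    ∀ g : Alt n, t ^ N * F g ≤ α + β * (q ^ N * nfix (g : Equiv.Perm (Fin n)) +
      (#(v : Equiv.Perm (Fin n)).support : ℝ) / (n - 1) * ∑ i ∈ range N, q ^ i) := by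
  set r : ℝ := (#(v : Equiv.Perm (Fin n)).support : ℝ) / (n - 1) with hr
  have hcard : (0 : ℝ) < Fintype.card (Alt n) := by exact_mod_cast Fintype.card_pos
  induction N with
  | zero => intro g; simpa using h0 g
  | succ N ih =>
    intro g
    have h1 : Fintype.card (Alt n) * (t ^ (N + 1) * F g) ≤ Fintype.card (Alt n) *
        (α + β * (q ^ (N + 1) * nfix (g : Equiv.Perm (Fin n)) +
          r * ∑ i ∈ range (N + 1), q ^ i)) := by
      calc Fintype.card (Alt n) * (t ^ (N + 1) * F g)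
          = t ^ N * (Fintype.card (Alt n) * (t * F g)) := by ring
        _ ≤ t ^ N * ∑ h : Alt n, F (g * (h * v * h⁻¹)) :=
            mul_le_mul_of_nonneg_left (hC g) (pow_nonneg ht _)
        _ = ∑ h : Alt n, t ^ N * F (g * (h * v * h⁻¹)) := Finset.mul_sum _ _ _
        _ ≤ ∑ h : Alt n, (α + β * (q ^ N *
              nfix ((g * (h * v * h⁻¹) : Alt n) : Equiv.Perm (Fin n)) +
                r * ∑ i ∈ range N, q ^ i)) := Finset.sum_le_sum fun h _ => ih _
        _ = Fintype.card (Alt n) * (α + β * (q ^ N *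
              ((1 - r) * nfix (g : Equiv.Perm (Fin n)) + r) + r * ∑ i ∈ range N, q ^ i)) := by
            have h2 : ∀ h : Alt n, (α + β * (q ^ N *
              nfix ((g * (h * v * h⁻¹) : Alt n) : Equiv.Perm (Fin n)) +
                r * ∑ i ∈ range N, q ^ i)) = (α + β * (r * ∑ i ∈ range N, q ^ i)) +
                (β * q ^ N) * nfix ((g * (h * v * h⁻¹) : Alt n) : Equiv.Perm (Fin n)) := by
              intro h
              ring
            rw [Finset.sum_congr rfl fun h _ => h2 h, Finset.sum_add_distrib, ← Finset.mul_sum,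
              sum_nfix hn, Finset.sum_const, Finset.card_univ, nsmul_eq_mul, ← hr]
            ring
        _ ≤ _ := by
            refine mul_le_mul_of_nonneg_left ?_ hcard.le
            rw [Finset.sum_range_succ]
            have h3 : β * q ^ N * ((1 - r) * nfix (g : Equiv.Perm (Fin n))) ≤
                β * q ^ N * (q * nfix (g : Equiv.Perm (Fin n))) := by
              refine mul_le_mul_of_nonneg_left ?_ (mul_nonneg hβ (pow_nonneg hq0 _))
              exact mul_le_mul_of_nonneg_right hq (Nat.cast_nonneg _)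
            have h4 : q ^ (N + 1) = q ^ N * q := pow_succ _ _
            rw [h4]
            nlinarith [h3]
    exact le_of_mul_le_mul_left h1 hcard

lemma half_le {x : ℝ} (hx0 : 0 ≤ x) (hx1 : x ≤ 1) : x / 2 ≤ 1 - Real.exp (-x) := by
  have h1 : x + 1 ≤ Real.exp x := Real.add_one_le_exp x
  have h2 : Real.exp (-x) ≤ 1 / (x + 1) := by
    rw [Real.exp_neg, ← one_div]
    exact one_div_le_one_div_of_le (by linarith) h1
  have h3 : x / 2 ≤ 1 - 1 / (x + 1) := by
    rw [← sub_nonneg]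
    have : 1 - 1 / (x + 1) - x / 2 = x * (1 - x) / (2 * (x + 1)) := by
      field_simp
      ring
    rw [this]
    have : 0 ≤ 1 - x := by linarith
    positivity
  linarith

theorem main {n : ℕ} (hn4 : 4 ≤ n) {b0 b1 : ℝ} (hb1 : 0 < b1) (hb10 : b1 ≤ b0)
    (hb12 : b1 ≤ 1 / 2) (hlarge : (5 : ℝ) ≤ (n : ℝ) ^ (b1 / 2))
    {V : Type} [NormedAddCommGroup V] [InnerProductSpace ℂ V] [FiniteDimensional ℂ V]
    (ρ : Alt n →* (V ≃ₗᵢ[ℂ] V)) (hirr : Irr ρ ⊤)
    (hrat : ∀ z : Alt n, nfix (z : Equiv.Perm (Fin n)) ≤ ⌈(n : ℝ) ^ (1 / 2 : ℝ)⌉₊ →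
      ‖chr ρ z‖ ≤ (n : ℝ) ^ (-b0) * Module.finrank ℂ V) (v : Alt n) :
    ‖chr ρ v‖ ≤ Real.exp (-(b1 / 4 * #(v : Equiv.Perm (Fin n)).support / n)) *
      Module.finrank ℂ V := by
  have hn4' : (4 : ℝ) ≤ n := by exact_mod_cast hn4
  have hn0 : (0 : ℝ) < n := by linarith
  by_cases hs : #(v : Equiv.Perm (Fin n)).support = 0
  · rw [hs]
    simpa using norm_chr_le ρ v
  have hne : Nontrivial V := by
    by_contra hcon
    rw [not_nontrivial_iff_subsingleton] at hcon
    exact hirr.1 (Subsingleton.elim _ _)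
  set d : ℝ := (Module.finrank ℂ V : ℝ) with hd
  have hd0 : 0 < d := by
    rw [hd]
    exact_mod_cast Module.finrank_pos
  set F : Alt n → ℝ := fun g => ‖chr ρ g‖ / d with hF
  set t : ℝ := ‖chr ρ v‖ / d with ht
  have ht0 : 0 ≤ t := by positivity
  set c : ℝ := (⌈(n : ℝ) ^ (1 / 2 : ℝ)⌉₊ : ℝ) with hc
  have hcge : (n : ℝ) ^ (1 / 2 : ℝ) ≤ c := Nat.le_ceil _
  have hrp : 0 < (n : ℝ) ^ (1 / 2 : ℝ) := Real.rpow_pos_of_pos hn0 _
  have hc0 : 0 < c := lt_of_lt_of_le hrp hcge
  set s : ℝ := (#(v : Equiv.Perm (Fin n)).support : ℝ) with hsdef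
  have hs1 : 1 ≤ s := by
    rw [hsdef]
    exact_mod_cast Nat.one_le_iff_ne_zero.2 hs
  have hsn : s ≤ n := by
    rw [hsdef]
    have := Finset.card_le_univ (v : Equiv.Perm (Fin n)).support
    rw [Fintype.card_fin] at this
    exact_mod_cast this
  -- pointwise bound
  have h0 : ∀ g : Alt n, F g ≤ (n : ℝ) ^ (-b0) + 1 / c * nfix (g : Equiv.Perm (Fin n)) := by
    intro g
    rw [hF]
    simp only
    rw [div_le_iff₀ hd0]
    by_cases hg : nfix (g : Equiv.Perm (Fin n)) ≤ ⌈(n : ℝ) ^ (1 / 2 : ℝ)⌉₊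
    · refine (hrat g hg).trans ?_
      refine mul_le_mul_of_nonneg_right ?_ hd0.le
      have : 0 ≤ 1 / c * (nfix (g : Equiv.Perm (Fin n)) : ℝ) := by positivity
      linarith
    · push Not at hg
      refine (norm_chr_le ρ g).trans ?_
      have h1 : (c : ℝ) ≤ nfix (g : Equiv.Perm (Fin n)) := by
        rw [hc]
        exact_mod_cast hg.le
      have h2 : 1 ≤ 1 / c * (nfix (g : Equiv.Perm (Fin n)) : ℝ) := by
        rw [one_div, ← div_eq_inv_mul, le_div_iff₀ hc0]
        linarith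
      have h3 : 0 ≤ (n : ℝ) ^ (-b0) := Real.rpow_nonneg hn0.le _
      nlinarith
  have hC : ∀ g : Alt n, Fintype.card (Alt n) * (t * F g) ≤
      ∑ h : Alt n, F (g * (h * v * h⁻¹)) := by
    intro g
    have h1 := congrArg norm (schur ρ hirr v g)
    rw [norm_mul, norm_mul, norm_mul, Complex.norm_natCast, Complex.norm_natCast, ← hd] at h1
    have h2 : ‖∑ h : Alt n, chr ρ (g * (h * v * h⁻¹))‖ ≤
        ∑ h : Alt n, ‖chr ρ (g * (h * v * h⁻¹))‖ := norm_sum_le _ _
    have h3 : Fintype.card (Alt n) * (t * F g) =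
        ‖∑ h : Alt n, chr ρ (g * (h * v * h⁻¹))‖ / d := by
      rw [ht, hF]
      simp only
      rw [eq_div_iff hd0.ne']
      field_simp
      linarith
    rw [h3, hF]
    simp only
    rw [← Finset.sum_div]
    exact div_le_div_of_nonneg_right h2 hd0.le
  have hF1 : F 1 = 1 := by
    rw [hF]
    simp only
    have : chr ρ 1 = (Module.finrank ℂ V : ℂ) := by
      unfold chr
      rw [op_one, LinearMap.trace_one]
    rw [this, Complex.norm_natCast, ← hd, div_self hd0.ne']
  have hnf1 : nfix ((1 : Alt n) : Equiv.Perm (Fin n)) = n := by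
    unfold nfix
    simp
  set x : ℝ := s / n with hx
  have hx0 : 0 < x := by positivity
  have hx1 : x ≤ 1 := by rw [hx, div_le_one hn0]; exact hsn
  set q : ℝ := Real.exp (-x) with hq
  have hq0 : 0 < q := Real.exp_pos _
  have hr43 : s / (n - 1) ≤ 4 / 3 * x := by
    rw [hx, div_le_iff₀ (by linarith)]
    have : 4 / 3 * (s / n) * (n - 1) = s * (4 / 3 * (n - 1) / n) := by
      field_simp
    rw [this]
    have h5 : 1 ≤ 4 / 3 * ((n : ℝ) - 1) / n := by
      rw [le_div_iff₀ hn0]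
      linarith
    nlinarith
  have hrx : x ≤ s / (n - 1) := by
    rw [hx]
    exact div_le_div_of_nonneg_left (by linarith) (by linarith) (by linarith)
  have hq1 : 1 - s / (n - 1) ≤ q := by
    have := Real.add_one_le_exp (-x)
    rw [← hq] at this
    linarith
  have hhalf := half_le hx0.le hx1
  rw [← hq] at hhalf
  have hlogn : 1 ≤ Real.log n := by
    rw [Real.le_log_iff_exp_le hn0]
    have := Real.exp_one_lt_d9
    linarith
  set N : ℕ := ⌈Real.log n / x⌉₊ with hN
  have hN1 : Real.log n / x ≤ N := Nat.le_ceil _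
  have hN1' : Real.log n ≤ N * x := by
    rwa [div_le_iff₀ hx0] at hN1
  have hlx : 1 ≤ Real.log n / x := by
    rw [le_div_iff₀ hx0]
    linarith
  have hN2 : (N : ℝ) ≤ 2 * (Real.log n / x) := by
    have := (Nat.ceil_lt_add_one (a := Real.log n / x) (by linarith)).le
    rw [← hN] at this
    linarith
  have hN2' : (N : ℝ) * x ≤ 2 * Real.log n := by
    have h5 := mul_le_mul_of_nonneg_right hN2 hx0.le
    have h6 : 2 * (Real.log n / x) * x = 2 * Real.log n := by
      field_simp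
    linarith
  have hmain := pow_ratio hn4 v F t ((n : ℝ) ^ (-b0)) (1 / c) ht0 (by positivity) h0 hC q hq0.le
    hq1 N 1
  rw [hF1, mul_one, hnf1] at hmain
  have hqN : q ^ N * n ≤ 1 := by
    rw [hq, ← Real.exp_nat_mul]
    have h5 : Real.exp (N * -x) ≤ Real.exp (-Real.log n) :=
      Real.exp_le_exp.2 (by linarith)
    rw [Real.exp_neg, Real.exp_log hn0] at h5
    calc Real.exp (N * -x) * n ≤ (n : ℝ)⁻¹ * n := mul_le_mul_of_nonneg_right h5 hn0.le
      _ = 1 := inv_mul_cancel₀ hn0.ne'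
  have hgeo : s / (n - 1) * ∑ i ∈ range N, q ^ i ≤ 3 := by
    have h5 : (1 - q) * ∑ i ∈ range N, q ^ i = 1 - q ^ N := mul_neg_geom_sum q N
    have h6 : 0 ≤ ∑ i ∈ range N, q ^ i := Finset.sum_nonneg fun i _ => pow_nonneg hq0.le _
    have h7 : 0 < q ^ N := pow_pos hq0 _
    have h8 : s / (n - 1) ≤ 3 * (1 - q) := by linarith
    calc s / (n - 1) * ∑ i ∈ range N, q ^ i ≤ 3 * (1 - q) * ∑ i ∈ range N, q ^ i :=
          mul_le_mul_of_nonneg_right h8 h6
      _ = 3 * (1 - q ^ N) := by rw [← h5]; ring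
      _ ≤ 3 := by linarith
  have hn1' : (1 : ℝ) ≤ n := by linarith
  have hA : (n : ℝ) ^ (-b0) ≤ (n : ℝ) ^ (-b1) :=
    Real.rpow_le_rpow_of_exponent_le hn1' (by linarith)
  have hB : 1 / c ≤ (n : ℝ) ^ (-b1) := by
    have h5 : 1 / c ≤ 1 / (n : ℝ) ^ (1 / 2 : ℝ) := one_div_le_one_div_of_le hrp hcge
    have h6 : 1 / (n : ℝ) ^ (1 / 2 : ℝ) = (n : ℝ) ^ (-(1 / 2) : ℝ) := by
      rw [Real.rpow_neg hn0.le, one_div]
    rw [h6] at h5
    exact h5.trans (Real.rpow_le_rpow_of_exponent_le hn1' (by linarith))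
  have htN : t ^ N ≤ (n : ℝ) ^ (-(b1 / 2)) := by
    have h5 : t ^ N ≤ 5 * (n : ℝ) ^ (-b1) := by
      have h6 : 1 / c * (q ^ N * n + s / (n - 1) * ∑ i ∈ range N, q ^ i) ≤
          (n : ℝ) ^ (-b1) * 4 := by
        refine mul_le_mul hB (by linarith) ?_ (Real.rpow_nonneg hn0.le _)
        have h7 : 0 ≤ s / (n - 1) := by linarith
        have h8 : 0 ≤ ∑ i ∈ range N, q ^ i := Finset.sum_nonneg fun i _ => pow_nonneg hq0.le _
        have h9 : 0 < q ^ N := pow_pos hq0 _
        positivity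
      linarith
    have h6 : (n : ℝ) ^ (-b1) = (n : ℝ) ^ (-(b1 / 2)) * (n : ℝ) ^ (-(b1 / 2)) := by
      rw [← Real.rpow_add hn0]
      congr 1
      ring
    have h7 : (n : ℝ) ^ (b1 / 2) * (n : ℝ) ^ (-(b1 / 2)) = 1 := by
      rw [← Real.rpow_add hn0]
      simp
    have h8 : 0 < (n : ℝ) ^ (-(b1 / 2)) := Real.rpow_pos_of_pos hn0 _
    have h9 : 5 * (n : ℝ) ^ (-(b1 / 2)) ≤ 1 := by
      rw [← h7]
      exact mul_le_mul_of_nonneg_right hlarge h8.le
    rw [h6] at h5
    calc t ^ N ≤ 5 * ((n : ℝ) ^ (-(b1 / 2)) * (n : ℝ) ^ (-(b1 / 2))) := h5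
      _ = (5 * (n : ℝ) ^ (-(b1 / 2))) * (n : ℝ) ^ (-(b1 / 2)) := by ring
      _ ≤ 1 * (n : ℝ) ^ (-(b1 / 2)) := mul_le_mul_of_nonneg_right h9 h8.le
      _ = _ := one_mul _
  -- conclusion
  have hfin : t ≤ Real.exp (-(b1 / 4 * x)) := by
    by_contra hcon
    push Not at hcon
    have hNne : N ≠ 0 := by
      intro h
      rw [h] at hN1
      simp only [Nat.cast_zero] at hN1
      linarith
    have h5 := pow_lt_pow_left₀ hcon (Real.exp_pos _).le hNne
    rw [← Real.exp_nat_mul] at h5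
    have h6 : (n : ℝ) ^ (-(b1 / 2)) = Real.exp (-(b1 / 2) * Real.log n) := by
      rw [Real.rpow_def_of_pos hn0]
      congr 1
      ring
    rw [h6] at htN
    have h7 : Real.exp (-(b1 / 2) * Real.log n) ≤ Real.exp (N * -(b1 / 4 * x)) := by
      apply Real.exp_le_exp.2
      have h8 : (b1 / 4) * (N * x) ≤ (b1 / 4) * (2 * Real.log n) :=
        mul_le_mul_of_nonneg_left hN2' (by positivity)
      linarith
    linarith
  rw [ht, div_le_iff₀ hd0] at hfin
  have h5 : b1 / 4 * s / n = b1 / 4 * x := by rw [hx]; ring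
  rw [h5]
  exact hfin

end SG516.CHB

namespace SG516
open RC14 RD516 P2516 Finset Filter Topology

theorem t_CHB : P2516.S_RAT → S_CHB := by
  rintro ⟨b0, hb0, hev⟩
  have hb1pos : 0 < min b0 (1 / 2) := lt_min hb0 (by norm_num)
  have hb12 : min b0 (1 / 2) ≤ 1 / 2 := min_le_right _ _
  refine ⟨min b0 (1 / 2) / 4, by positivity, by linarith, ?_⟩
  have hlarge : ∀ᶠ n : ℕ in atTop, (5 : ℝ) ≤ (n : ℝ) ^ (min b0 (1 / 2) / 2) :=
    ((tendsto_rpow_atTop (by positivity)).comp tendsto_natCast_atTop_atTop).eventually_ge_atTop 5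
  filter_upwards [hev, hlarge, eventually_ge_atTop 4] with n hn hl hn4
  intro v V _ _ _ ρ hirr hnt
  exact CHB.main hn4 hb1pos (min_le_left _ _) hb12 hl ρ hirr
    (fun z hz => hn z hz V ρ hirr hnt) v

end SG516
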