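import Pool.Agent.U516.SG.Spec
import Pool.Agent.U516.P2.PkgVAR

/-!
Package CMP of the project SG (helper789 for helper516): comparison of the walk with the conjugacy
class of `v`.
-/

namespace SG516
open RC14 RD516 P2516 Finset
open scoped InnerProductSpace

noncomputable section

/-- the squared displacement of `f` under the right translation by `y` -/
def Qd {n : ℕ} (f : Alt n → ℝ) (y : Alt n) : ℝ := ∑ g, (f (g * y) - f g) ^ 2

lemma Qd_nonneg {n : ℕ} (f : Alt n → ℝ) (y : Alt n) : 0 ≤ Qd f y :=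
  Finset.sum_nonneg fun _ _ => sq_nonneg _

lemma sum_mul_right' {n : ℕ} (F : Alt n → ℝ) (y : Alt n) : ∑ g, F (g * y) = ∑ g, F g :=
  Equiv.sum_comp (Equiv.mulRight y) F

lemma Qd_eq {n : ℕ} (f : Alt n → ℝ) (y : Alt n) :
    Qd f y = 2 * ∑ g, f g ^ 2 - 2 * ∑ g, f g * f (g * y) := by
  have h1 : ∑ g, f (g * y) ^ 2 = ∑ g, f g ^ 2 := sum_mul_right' (fun g => f g ^ 2) y
  have h2 : Qd f y = ∑ g, (f (g * y) ^ 2 + f g ^ 2 - 2 * (f g * f (g * y))) := by
    refine Finset.sum_congr rfl fun g _ => ?_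
    ring
  rw [h2, Finset.sum_sub_distrib, Finset.sum_add_distrib, h1, ← Finset.mul_sum]
  ring

lemma corr_inv {n : ℕ} (f : Alt n → ℝ) (y : Alt n) :
    ∑ g, f g * f (g * y⁻¹) = ∑ g, f g * f (g * y) := by
  rw [← sum_mul_right' (fun g => f g * f (g * y⁻¹)) y]
  refine Finset.sum_congr rfl fun g _ => ?_
  rw [mul_inv_cancel_right, mul_comm]

lemma Qd_mul {n : ℕ} (f : Alt n → ℝ) (q : ℝ) (m : ℕ) (y z : Alt n) (hy : Qd f y ≤ q)
    (hz : Qd f z ≤ (m : ℝ) ^ 2 * q) : Qd f (y * z) ≤ ((m : ℝ) + 1) ^ 2 * q := by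
  have h1 : ∑ g, (f (g * y * z) - f (g * y)) ^ 2 = Qd f z :=
    sum_mul_right' (fun g => (f (g * z) - f g) ^ 2) y
  rcases Nat.eq_zero_or_pos m with rfl | hm
  · have h2 : Qd f z = 0 := by
      refine le_antisymm ?_ (Qd_nonneg f z)
      simpa using hz
    have h3 : ∀ g, f (g * z) = f g := by
      intro g
      have h4 := (Finset.sum_eq_zero_iff_of_nonneg fun g _ => sq_nonneg (f (g * z) - f g)).1 h2 g
        (Finset.mem_univ g)
      have h5 := pow_eq_zero_iff (two_ne_zero) |>.1 h4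
      linarith
    have h6 : Qd f (y * z) = Qd f y := by
      refine Finset.sum_congr rfl fun g _ => ?_
      rw [← mul_assoc, h3]
    rw [h6]
    simpa using hy
  · have hm' : (0 : ℝ) < m := by exact_mod_cast hm
    have h2 : (m : ℝ) * Qd f (y * z) ≤ (m + 1) * Qd f z + (m ^ 2 + m) * Qd f y := by
      rw [← h1]
      unfold Qd
      rw [Finset.mul_sum, Finset.mul_sum, Finset.mul_sum, ← Finset.sum_add_distrib]
      refine Finset.sum_le_sum fun g _ => ?_
      have h3 := sq_nonneg ((f (g * y * z) - f (g * y)) - m * (f (g * y) - f g))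
      rw [← mul_assoc]
      nlinarith
    have h4 : (m : ℝ) * Qd f (y * z) ≤ m * (((m : ℝ) + 1) ^ 2 * q) := by
      have h5 : ((m : ℝ) + 1) * Qd f z ≤ (m + 1) * ((m : ℝ) ^ 2 * q) :=
        mul_le_mul_of_nonneg_left hz (by positivity)
      have h6 : ((m : ℝ) ^ 2 + m) * Qd f y ≤ (m ^ 2 + m) * q :=
        mul_le_mul_of_nonneg_left hy (by positivity)
      calc (m : ℝ) * Qd f (y * z) ≤ (m + 1) * ((m : ℝ) ^ 2 * q) + (m ^ 2 + m) * q := by linarith
        _ = m * (((m : ℝ) + 1) ^ 2 * q) := by ring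
    exact le_of_mul_le_mul_left h4 hm'

lemma Qd_prod {n : ℕ} (f : Alt n → ℝ) (q : ℝ) (w : List (Alt n)) (hw : ∀ y ∈ w, Qd f y ≤ q) :
    Qd f w.prod ≤ (w.length : ℝ) ^ 2 * q := by
  induction w with
  | nil => simp [Qd]
  | cons y w ih =>
    rw [List.prod_cons, List.length_cons]
    push_cast
    exact Qd_mul f q w.length y w.prod (hw y (by simp)) (ih fun z hz => hw z (by simp [hz]))

/-- the form of the walk is the mean of the squared displacements -/
lemma form_eq {n k : ℕ} (hk : 1 ≤ k) (x : Fin k → Alt n) (f : Alt n → ℝ) :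
    ∑ g, f g * ((∑ i, (f (g * x i) + f (g * (x i)⁻¹))) / (2 * k)) =
      ∑ g, f g ^ 2 - (∑ i, Qd f (x i)) / (2 * k) := by
  have hk' : (0 : ℝ) < k := by exact_mod_cast hk
  have h1 : ∀ g, f g * ((∑ i, (f (g * x i) + f (g * (x i)⁻¹))) / (2 * k)) =
      (∑ i, (f g * f (g * x i) + f g * f (g * (x i)⁻¹))) / (2 * k) := by
    intro g
    rw [mul_div_assoc', Finset.mul_sum]
    congr 1
    exact Finset.sum_congr rfl fun i _ => mul_add _ _ _
  rw [Finset.sum_congr rfl fun g _ => h1 g, ← Finset.sum_div, Finset.sum_comm]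
  have h2 : ∀ i, ∑ g, (f g * f (g * x i) + f g * f (g * (x i)⁻¹)) =
      2 * ∑ g, f g ^ 2 - Qd f (x i) := by
    intro i
    rw [Finset.sum_add_distrib, corr_inv, Qd_eq]
    ring
  rw [Finset.sum_congr rfl fun i _ => h2 i, Finset.sum_sub_distrib, Finset.sum_const,
    Finset.card_univ, Fintype.card_fin, nsmul_eq_mul]
  field_simp

/-- comparison with every element of the ball -/
lemma Qd_ball {n k D : ℕ} (x : Fin k → Alt n) (f : Alt n → ℝ) (c : Alt n)
    (hc : (c : Equiv.Perm (Fin n)) ∈ PB x D) :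
    Qd f c ≤ (D : ℝ) ^ 2 * ∑ i, Qd f (x i) := by
  obtain ⟨w, h1, h2, h3⟩ := hc
  have h4 : w.prod = c := Subtype.ext h3
  have h5 : ∀ y ∈ w, Qd f y ≤ ∑ i, Qd f (x i) := by
    intro y hy
    obtain ⟨i, hi | hi⟩ := h2 y hy
    · rw [hi]
      exact Finset.single_le_sum (f := fun i => Qd f (x i)) (fun i _ => Qd_nonneg f (x i))
        (Finset.mem_univ i)
    · have h6 : Qd f y = Qd f (x i) := by
        rw [hi, Qd_eq, Qd_eq, corr_inv]
      rw [h6]
      exact Finset.single_le_sum (f := fun i => Qd f (x i)) (fun i _ => Qd_nonneg f (x i))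
        (Finset.mem_univ i)
  have h7 := Qd_prod f (∑ i, Qd f (x i)) w h5
  rw [h4] at h7
  refine h7.trans ?_
  have h8 : (w.length : ℝ) ≤ D := by exact_mod_cast h1
  have h9 : 0 ≤ ∑ i, Qd f (x i) := Finset.sum_nonneg fun i _ => Qd_nonneg f (x i)
  exact mul_le_mul_of_nonneg_right (pow_le_pow_left₀ (Nat.cast_nonneg _) h8 2) h9

/-- the correlations with the conjugates of `v` -/
lemma conj_corr {n : ℕ} (v : Alt n) (β : ℝ)
    (hx : ∀ (V : Type) [NormedAddCommGroup V] [InnerProductSpace ℂ V] [FiniteDimensional ℂ V]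
      (ρ : Alt n →* (V ≃ₗᵢ[ℂ] V)), Irr ρ ⊤ → (∃ g w, ρ g w ≠ w) →
      ‖chr ρ v‖ ≤ β * Module.finrank ℂ V) (f : Alt n → ℝ) (h0 : ∑ g, f g = 0) :
    ∑ h : Alt n, ∑ g, f g * f (g * (h * v * h⁻¹)) ≤
      Fintype.card (Alt n) * β * ∑ g, f g ^ 2 := by
  set F : FA n := WithLp.toLp 2 fun g => (f g : ℂ) with hF
  have hFa : ∀ g, F g = (f g : ℂ) := fun g => rfl
  have h0' : F ∈ V0 n := by
    rw [mem_V0]
    simp only [hFa]
    rw [← Complex.ofReal_sum, h0, Complex.ofReal_zero]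
  have h1 := cavgz_le v β hx F h0'
  have h7 : ‖F‖ ^ 2 = ∑ g, f g ^ 2 := by
    rw [EuclideanSpace.norm_sq_eq]
    refine Finset.sum_congr rfl fun g _ => ?_
    rw [hFa, Complex.norm_real, Real.norm_eq_abs, sq_abs]
  have h8 : (⟪cavg (RR n) (Az (RR n) v) F, F⟫_ℂ).re =
      ∑ h : Alt n, ∑ g, f g * f (g * (h * v * h⁻¹)) := by
    unfold cavg
    rw [LinearMap.sum_apply, sum_inner, Complex.re_sum]
    refine Finset.sum_congr rfl fun h _ => ?_
    rw [PiLp.inner_apply, Complex.re_sum]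
    have h9 : ∀ g, (⟪((op (RR n) h * Az (RR n) v * op (RR n) h⁻¹) F) g, F g⟫_ℂ).re =
        (1 / 2) * (f g * f (g * (h * v * h⁻¹))) +
          (1 / 2) * (f g * f (g * (h * v * h⁻¹)⁻¹)) := by
      intro g
      have h10 : ((op (RR n) h * Az (RR n) v * op (RR n) h⁻¹) F) g =
          (((1 / 2) * (f (g * (h * v * h⁻¹)) + f (g * (h * v * h⁻¹)⁻¹)) : ℝ) : ℂ) := by
        rw [Module.End.mul_apply, Module.End.mul_apply, op_apply, op_apply, RR_apply, Az_apply,
          PiLp.smul_apply, PiLp.add_apply, RR_apply, RR_apply, RR_apply, RR_apply, hFa, hFa,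
          smul_eq_mul]
        have e1 : g * h * v * h⁻¹ = g * (h * v * h⁻¹) := by group
        have e2 : g * h * v⁻¹ * h⁻¹ = g * (h * v * h⁻¹)⁻¹ := by group
        rw [e1, e2]
        push_cast
        rfl
      rw [h10, hFa, RCLike.inner_apply, Complex.conj_ofReal, ← Complex.ofReal_mul,
        Complex.ofReal_re]
      ring
    rw [Finset.sum_congr rfl fun g _ => h9 g, Finset.sum_add_distrib, ← Finset.mul_sum,
      ← Finset.mul_sum, corr_inv]
    ring
  rw [h8, h7] at h1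
  exact h1

/-- package CMP -/
theorem t_CMP : S_CMP := by
  intro n k D x v β hk _ hPB hx f h0
  rw [form_eq hk x f]
  have hQ : 0 ≤ ∑ i, Qd f (x i) := Finset.sum_nonneg fun i _ => Qd_nonneg f (x i)
  have hk' : (0 : ℝ) < k := by exact_mod_cast hk
  rcases Nat.eq_zero_or_pos D with rfl | hD
  · have h1 : 0 ≤ (∑ i, Qd f (x i)) / (2 * k) := by positivity
    have h2 : (1 - (1 - β) / ((k : ℝ) * ((0 : ℕ) : ℝ) ^ 2)) = 1 := by simp
    rw [h2, one_mul]
    linarith
  · have hD' : (0 : ℝ) < D := by exact_mod_cast hD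
    have h1 : ∀ h : Alt n, 2 * ∑ g, f g ^ 2 - 2 * ∑ g, f g * f (g * (h * v * h⁻¹)) ≤
        (D : ℝ) ^ 2 * ∑ i, Qd f (x i) := by
      intro h
      rw [← Qd_eq]
      exact Qd_ball x f _ (hPB h)
    have h2 := Finset.sum_le_sum fun (h : Alt n) (_ : h ∈ Finset.univ) => h1 h
    rw [Finset.sum_sub_distrib, Finset.sum_const, Finset.sum_const, ← Finset.mul_sum,
      Finset.card_univ, nsmul_eq_mul, nsmul_eq_mul] at h2
    have h3 := conj_corr v β hx f h0
    have hN : (0 : ℝ) < Fintype.card (Alt n) := by exact_mod_cast Fintype.card_pos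
    have h4 : (Fintype.card (Alt n) : ℝ) * (2 * (1 - β) * ∑ g, f g ^ 2) ≤
        Fintype.card (Alt n) * ((D : ℝ) ^ 2 * ∑ i, Qd f (x i)) := by
      calc (Fintype.card (Alt n) : ℝ) * (2 * (1 - β) * ∑ g, f g ^ 2) =
          (Fintype.card (Alt n) : ℝ) * (2 * ∑ g, f g ^ 2) -
            2 * (Fintype.card (Alt n) * β * ∑ g, f g ^ 2) := by ring
        _ ≤ (Fintype.card (Alt n) : ℝ) * (2 * ∑ g, f g ^ 2) -
            2 * ∑ h : Alt n, ∑ g, f g * f (g * (h * v * h⁻¹)) := by linarith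
        _ ≤ _ := h2
    have h5 := le_of_mul_le_mul_left h4 hN
    have h6 : (1 - β) / (k * (D : ℝ) ^ 2) * ∑ g, f g ^ 2 =
        (2 * (1 - β) * ∑ g, f g ^ 2) / (2 * k * (D : ℝ) ^ 2) := by
      field_simp
    have h7 : (∑ i, Qd f (x i)) / (2 * k) =
        ((D : ℝ) ^ 2 * ∑ i, Qd f (x i)) / (2 * k * (D : ℝ) ^ 2) := by
      field_simp
    have h8 : (2 * (1 - β) * ∑ g, f g ^ 2) / (2 * k * (D : ℝ) ^ 2) ≤
        ((D : ℝ) ^ 2 * ∑ i, Qd f (x i)) / (2 * k * (D : ℝ) ^ 2) :=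
      div_le_div_of_nonneg_right h5 (by positivity)
    rw [sub_mul, one_mul, h6, h7]
    linarith

end

end SG516
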