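import Pool.Agent.U516.SG.Spec
import Pool.Agent.U516.P2.Fin2

/-!
Project SG: the assembly.
-/

namespace SG516
open RC14 RD516 R3516 P2516 Finset Equiv Filter Topology

noncomputable section

/-- the walk on `A_n` has spectral gap at least `γ` -/
def FG {n k : ℕ} (γ : ℝ) (x : Fin k → Alt n) : Prop := ∀ f : Alt n → ℝ, ∑ g, f g = 0 →
  ∑ g, f g * ((∑ i, (f (g * x i) + f (g * (x i)⁻¹))) / (2 * k)) ≤ (1 - γ) * ∑ g, f g ^ 2

section det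
variable {n k : ℕ} {x : Fin k → alternatingGroup (Fin n)}

/-- the deterministic part -/
theorem det2g (hCM : S_CM) (hk : 1 ≤ k) {ε : ℝ} (hε : ε ≤ 2)
    {L1 L2 M : ℕ} (hn : 400 ≤ n) (hg : ∀ r ≤ M, TGap x ε r) (hM : 1600 ≤ M)
    (hL : (1 - ε / 2) ^ L2 * (n : ℝ) ^ 2 ≤ 1 / (16 * (n : ℝ) ^ 2))
    (hT : (1 - ε / 2) ^ n * ((n : ℝ) ^ M) ^ 2 ≤ 1 / 64) (h2M : 2 * M ≤ n)
    {g : Perm (Fin n)} (hgw : g ∈ PB x (1 + L1))
    (hgp : ∃ m ≤ n, n ≤ 32 * #(g ^ m).support ∧ 8 * #(g ^ m).support ≤ n) :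
    ∃ ℓ : ℕ, (ℓ : ℝ) ≤ 256 * (n * (1 + L1) + 2 * L2) * Real.log n ^ 2 + 4 * n ∧
      (∃ v ∈ PB x ℓ, M ≤ 512 * #v.support ∧ #v.support ≤ M) ∧ Trans x M n := by
  obtain ⟨m0, hm0, h1, h2⟩ := hgp
  have hn1 : (1 : ℝ) ≤ n := by
    have : 1 ≤ n := by omega
    exact_mod_cast this
  have ht : g ^ m0 ∈ PB x (n * (1 + L1)) :=
    PB.mono (Nat.mul_le_mul_right _ hm0) (PB.pow hgw m0)
  obtain ⟨m, hm⟩ : ∃ m, m = M / 16 := ⟨_, rfl⟩
  have hm16 : 16 * m ≤ M := by omega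
  have hm100 : 100 ≤ m := by omega
  have hMm : M ≤ 32 * m := by omega
  obtain ⟨R, hRdef⟩ : ∃ R, R = Nat.sqrt (m * n) := ⟨_, rfl⟩
  have hR1 : R ^ 2 ≤ m * n := by rw [hRdef]; exact Nat.sqrt_le' _
  have hR2 : m * n < (R + 1) ^ 2 := by rw [hRdef]; exact Nat.lt_succ_sqrt' _
  have hR3 : m * n ≤ 4 * R ^ 2 := by
    have : 1 ≤ R := by
      by_contra hcon
      have h0 : R = 0 := by omega
      rw [h0] at hR2
      have : 1 ≤ m * n := Nat.mul_pos (by omega) (by omega)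
      omega
    nlinarith
  have hR8 : 8 * n ≤ R ^ 2 := by
    have : 100 * n ≤ m * n := Nat.mul_le_mul_right _ hm100
    omega
  have hlow : R ^ 2 ≤ 4 * n * #(g ^ m0).support := by
    have h3 : m * n ≤ 4 * n * #(g ^ m0).support := by
      have h4 : 8 * m ≤ n := by omega
      have h5 : 8 * (m * n) ≤ n * n := by nlinarith
      have h6 : n * n ≤ n * (32 * #(g ^ m0).support) := Nat.mul_le_mul_left _ h1
      nlinarith
    exact hR1.trans h3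
  obtain ⟨u, ℓ, hu, hu1, hu2, hu3, hu4⟩ := reduce2 hk hε (hg 2 (by omega)) hL (by omega) hR8
    #(g ^ m0).support (n * (1 + L1)) (g ^ m0) ht rfl h2 hlow
  have hs0 : 1 ≤ #(g ^ m0).support := by omega
  have hlg := log_ge hs0 h2
  -- the length after the reduction
  have hlen : (ℓ : ℝ) ≤ 64 * (n * (1 + L1) + 2 * L2) * Real.log n ^ 2 := by
    have h3 : (1 / 16 : ℝ) ≤ Real.log (n / (6 * #(g ^ m0).support)) ^ 2 := by
      have := pow_le_pow_left₀ (by norm_num) hlg 2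
      norm_num at this ⊢
      linarith
    have h4 : (0 : ℝ) ≤ ((ℓ + 2 * L2 : ℕ) : ℝ) := Nat.cast_nonneg _
    have h5 := mul_le_mul_of_nonneg_left h3 h4
    have h6 : (ℓ : ℝ) ≤ ((ℓ + 2 * L2 : ℕ) : ℝ) := by
      push_cast
      have : (0 : ℝ) ≤ L2 := Nat.cast_nonneg _
      linarith
    have h7 : ((ℓ + 2 * L2 : ℕ) : ℝ) * (1 / 16) ≤
        4 * ((n * (1 + L1) + 2 * L2 : ℕ) : ℝ) * Real.log n ^ 2 := h5.trans hu4
    push_cast at h6 h7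
    linarith
  -- the last step
  have hlast : ∃ ℓ₂ : ℕ, ∃ v ∈ PB x ℓ₂, ℓ₂ ≤ 4 * ℓ + 4 * n ∧ m ≤ 16 * #v.support ∧
      #v.support ≤ 15 * m := by
    by_cases h3 : 3 * m ≤ #u.support
    · have hTm : (1 - ε / 2) ^ n * ((n : ℝ) ^ (2 * m + 2)) ^ 2 ≤ 1 / 64 := by
        refine le_trans ?_ hT
        have h4 : (n : ℝ) ^ (2 * m + 2) ≤ (n : ℝ) ^ M := pow_le_pow_right₀ hn1 (by omega)
        have h5 : (0 : ℝ) ≤ (1 - ε / 2) ^ n := pow_nonneg (by linarith) _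
        gcongr
      obtain ⟨v, hv, hv1, hv2⟩ := hCM n k x ε m n ℓ u hk hε (by omega) (hg _ (by omega))
        (hg _ (by omega)) hTm hu h3 ((Nat.pow_le_pow_left hu1 2).trans hR1) hu3
      exact ⟨_, v, hv, le_rfl, by omega, hv2⟩
    · refine ⟨ℓ, u, hu, by omega, ?_, by omega⟩
      have h4 : n * m ≤ n * (16 * #u.support) := by nlinarith
      exact Nat.le_of_mul_le_mul_left h4 (by omega)
  obtain ⟨ℓ₂, v, hv, hv0, hv1, hv2⟩ := hlast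
  have htr : Trans x M n := trans_of_gap hk hε (by omega) hg (by linarith)
  refine ⟨ℓ₂, ?_, ⟨v, hv, by omega, by omega⟩, htr⟩
  have hv0' : (ℓ₂ : ℝ) ≤ 4 * ℓ + 4 * n := by exact_mod_cast hv0
  linarith


/-- from a word of small support all of whose conjugates are short to the gap -/
theorem fg_of (hCMP : S_CMP) {b : ℝ} (hb : 0 < b) (hb1 : b ≤ 1) (hk : 1 ≤ k)
    (hchb : ∀ v : Alt n, ∀ (V : Type) [NormedAddCommGroup V] [InnerProductSpace ℂ V]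
      [FiniteDimensional ℂ V] (ρ : Alt n →* (V ≃ₗᵢ[ℂ] V)), Irr ρ ⊤ → (∃ g w, ρ g w ≠ w) →
      ‖chr ρ v‖ ≤ Real.exp (-(b * #(v : Equiv.Perm (Fin n)).support / n)) * Module.finrank ℂ V)
    {M T ℓ : ℕ} (htr : Trans x M T) {v : Perm (Fin n)} (hv : v ∈ PB x ℓ) (hs : #v.support ≤ M)
    (hn : 1 ≤ n) :
    FG (b * #v.support / (2 * n) / (k * ((ℓ + 2 * T : ℕ) : ℝ) ^ 2)) x := by
  intro f hf
  have hn' : (0 : ℝ) < n := by exact_mod_cast hn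
  set v' : Alt n := ⟨v, PB.mem_alt hv⟩ with hv'
  set s : ℝ := (#v.support : ℝ) with hsdef
  have hs0 : 0 ≤ s := Nat.cast_nonneg _
  have hsn : s ≤ n := by
    have : #v.support ≤ n := by
      refine (card_le_univ _).trans ?_
      rw [Fintype.card_fin]
    rw [hsdef]
    exact_mod_cast this
  have h1 := hCMP n k (ℓ + 2 * T) x v' (Real.exp (-(b * s / n))) hk (Real.exp_pos _).le
    (fun π => by
      have := conj_mem htr hv hs (π : Perm (Fin n))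
      simpa using this) (hchb v') f hf
  refine h1.trans ?_
  have h0 : (0 : ℝ) ≤ ∑ g, f g ^ 2 := sum_nonneg fun g _ => sq_nonneg _
  refine mul_le_mul_of_nonneg_right ?_ h0
  have ht1 : b * s / n ≤ 1 := by
    rw [div_le_one hn']
    nlinarith
  have ht0 : 0 ≤ b * s / n := by positivity
  have h2 : b * s / (2 * n) ≤ 1 - Real.exp (-(b * s / n)) := by
    have h3 : Real.exp (-(b * s / n)) ≤ 1 - (b * s / n) / 2 := by
      set t : ℝ := b * s / n with ht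
      have h4 : 1 + t ≤ Real.exp t := by linarith [Real.add_one_le_exp t]
      rw [Real.exp_neg, inv_eq_one_div, div_le_iff₀ (Real.exp_pos _)]
      have h5 : 0 ≤ 1 - t / 2 := by linarith
      have h6 := mul_le_mul_of_nonneg_left h4 h5
      nlinarith
    have h6 : b * s / (2 * n) = (b * s / n) / 2 := by
      field_simp
    rw [h6]
    linarith
  have h7 : b * s / (2 * n) / (k * ((ℓ + 2 * T : ℕ) : ℝ) ^ 2) ≤
      (1 - Real.exp (-(b * s / n))) / (k * ((ℓ + 2 * T : ℕ) : ℝ) ^ 2) :=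
    div_le_div_of_nonneg_right h2 (by positivity)
  linarith

lemma FG.mono {γ γ' : ℝ} (h : γ' ≤ γ) (hx : FG γ x) : FG γ' x := by
  intro f hf
  refine (hx f hf).trans (mul_le_mul_of_nonneg_right (by linarith) ?_)
  exact sum_nonneg fun g _ => sq_nonneg _

end det

lemma numg {n k : ℕ} {b X Y s ℓ : ℝ} (hb : 0 < b) (hn : 1 ≤ n) (hk : 1 ≤ k) (hX1 : 12700000 ≤ X)
    (hXb : 1 / b ≤ X) (hXk : (k : ℝ) ≤ X) (hY : 0 < Y) (hs : Y ≤ 1024 * s) (hℓ0 : 0 ≤ ℓ)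
    (hℓ : ℓ ≤ 520 * n * X ^ 2) (hℓ1 : 0 < ℓ) :
    Y / (n ^ 3 * X ^ 8) ≤ b * s / (2 * n) / (k * ℓ ^ 2) := by
  have hn' : (0 : ℝ) < n := by exact_mod_cast hn
  have hk' : (0 : ℝ) < k := by exact_mod_cast hk
  have hX0 : (0 : ℝ) < X := by linarith
  have hs0 : 0 < s := by linarith
  rw [div_div, div_le_div_iff₀ (by positivity) (by positivity)]
  have h1 : ℓ ^ 2 ≤ (520 * n * X ^ 2) ^ 2 := pow_le_pow_left₀ hℓ0 hℓ 2
  have h2 : 1 ≤ b * X := by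
    rw [div_le_iff₀ hb] at hXb
    linarith
  have h3 : (1024 * 2 * 520 ^ 2 : ℝ) ≤ X ^ 2 := by nlinarith
  calc Y * (2 * n * (k * ℓ ^ 2)) ≤ (1024 * s) * (2 * n * (X * (520 * n * X ^ 2) ^ 2)) := by
        gcongr
    _ = (1024 * 2 * 520 ^ 2) * (s * (n ^ 3 * X ^ 5)) := by ring
    _ ≤ X ^ 2 * (s * (n ^ 3 * X ^ 5)) := by gcongr
    _ = 1 * (s * (n ^ 3 * X ^ 7)) := by ring
    _ ≤ (b * X) * (s * (n ^ 3 * X ^ 7)) := by gcongr
    _ = b * s * (n ^ 3 * X ^ 8) := by ring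

/-- the argument for one `n` -/
theorem one_g2 (hCM : S_CM) (hCMP : S_CMP) {n : ℕ} {ε X Y b : ℝ} (hε : ε ≤ 2) {J M : ℕ}
    (hn : 400 ≤ n) (hb : 0 < b) (hb1 : b ≤ 1)
    (hchb : ∀ v : Alt n, ∀ (V : Type) [NormedAddCommGroup V] [InnerProductSpace ℂ V]
      [FiniteDimensional ℂ V] (ρ : Alt n →* (V ≃ₗᵢ[ℂ] V)), Irr ρ ⊤ → (∃ g w, ρ g w ≠ w) →
      ‖chr ρ v‖ ≤ Real.exp (-(b * #(v : Equiv.Perm (Fin n)).support / n)) * Module.finrank ℂ V)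
    (E : Finset (Alt n))
    (hE3 : ∀ g ∈ E, ∃ m ≤ n, n ≤ 32 * #((g : Equiv.Perm (Fin n)) ^ m).support ∧
        8 * #((g : Equiv.Perm (Fin n)) ^ m).support ≤ n)
    (hM : 1600 ≤ M) (hL : (1 - ε / 2) ^ n * (n : ℝ) ^ 2 ≤ 1 / (16 * (n : ℝ) ^ 2))
    (hT : (1 - ε / 2) ^ n * ((n : ℝ) ^ M) ^ 2 ≤ 1 / 64) (h2M : 2 * M ≤ n)
    (hX1 : 12700000 ≤ X) (hXb : 1 / b ≤ X) (hJX : (J : ℝ) + 2 ≤ X) (hlog : Real.log n ^ 2 ≤ X)
    (hY0 : 0 < Y) (hYM : Y ≤ 2 * M) :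
    (Nat.card {x : Fin 2 → Alt n // ¬ FG (Y / (n ^ 3 * X ^ 8)) x} : ℝ) ≤
      Nat.card {x : Fin 2 → Alt n // ¬ ∀ r ≤ M, TGap x ε r} +
      Nat.card {x : Fin 2 → Alt n // ¬ ∃ i ≤ J, x 0 * x 1 ^ i ∈ E} := by
  classical
  rw [Nat.card_eq_fintype_card, Nat.card_eq_fintype_card, Nat.card_eq_fintype_card,
    Fintype.card_subtype, Fintype.card_subtype, Fintype.card_subtype]
  have h4 : (univ.filter fun x : Fin 2 → Alt n => ¬ FG (Y / (n ^ 3 * X ^ 8)) x) ⊆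
      (univ.filter fun x : Fin 2 → Alt n => ¬ ∀ r ≤ M, TGap x ε r) ∪
      (univ.filter fun x : Fin 2 → Alt n => ¬ ∃ i ≤ J, x 0 * x 1 ^ i ∈ E) := by
    intro x hx
    rw [mem_filter] at hx
    rw [mem_union, mem_filter, mem_filter]
    by_contra hcon
    push Not at hcon
    apply hx.2
    obtain ⟨hA, hB⟩ := hcon
    have hA' := hA (mem_univ _)
    obtain ⟨i, hi, hw⟩ := hB (mem_univ _)
    have hgw : ((x 0 * x 1 ^ i : Alt n) : Equiv.Perm (Fin n)) ∈ PB x (1 + J) := by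
      rw [Subgroup.coe_mul, Subgroup.coe_pow]
      exact PB.mul (PB.gen 0) (PB.mono (by omega) (PB.pow (PB.gen 1) i))
    obtain ⟨ℓ, g1, ⟨v, hv, g2, g3⟩, g4⟩ := det2g hCM (by norm_num) hε hn hA' hM hL hT h2M hgw
      (hE3 _ hw)
    have hn1 : (1 : ℝ) ≤ n := by
      have : 1 ≤ n := by omega
      exact_mod_cast this
    have hX0 : (0 : ℝ) < X := by linarith
    have hJ0 : (0 : ℝ) ≤ J := Nat.cast_nonneg _
    have hℓ : (((ℓ + 2 * n : ℕ)) : ℝ) ≤ 520 * n * X ^ 2 := by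
      push_cast
      have h5 : (n : ℝ) * (1 + J) + 2 * n ≤ 2 * n * X := by nlinarith
      have h6 : (0 : ℝ) ≤ Real.log n ^ 2 := sq_nonneg _
      have h7 : 256 * ((n : ℝ) * (1 + J) + 2 * n) * Real.log n ^ 2 ≤ 256 * (2 * n * X) * X := by
        gcongr
      have h8 : (n : ℝ) ≤ n * X ^ 2 := by
        have : (1 : ℝ) ≤ X ^ 2 := one_le_pow₀ (by linarith)
        nlinarith
      nlinarith
    have hs : Y ≤ 1024 * (#v.support : ℝ) := by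
      have : (M : ℝ) ≤ 512 * (#v.support : ℝ) := by exact_mod_cast g2
      linarith
    refine FG.mono (numg (k := 2) hb (by omega) (by norm_num) hX1 hXb (by push_cast; linarith) hY0 hs
      (Nat.cast_nonneg _) hℓ ?_) (fg_of hCMP hb hb1 (by norm_num) hchb g4 hv g3 (by omega))
    have : 0 < ℓ + 2 * n := by omega
    exact_mod_cast this
  exact_mod_cast (card_le_card h4).trans (card_union_le _ _)

/-- two generators -/
theorem mainG2 (hST : S_ST) (hCM : S_CM) (hTGP : S_TGP) (hSEC : S_SEC) (hCHB : S_CHB)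
    (hCMP : S_CMP) (δ : ℝ) (hδ : 0 < δ) : ∀ e : ℝ, 0 < e → ∀ᶠ n : ℕ in atTop,
      (Nat.card {x : Fin 2 → Alt n // ¬ FG ((n : ℝ) ^ (-(32 / 11 + δ))) x} : ℝ) ≤
        e * (Fintype.card (Alt n) : ℝ) ^ 2 := by
  intro e he
  obtain ⟨δ₁, hd0, hd1, hd2⟩ : ∃ δ₁ : ℝ, 0 < δ₁ ∧ δ₁ ≤ 1 / 22 ∧ 9 * δ₁ ≤ δ := by
    refine ⟨min (δ / 9) (1 / 22), lt_min (by linarith) (by norm_num), min_le_right _ _, ?_⟩
    have := min_le_left (δ / 9) (1 / 22 : ℝ)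
    linarith
  obtain ⟨c₀, hc0, N, hE⟩ := hST
  obtain ⟨b, hb, hb1, hchb⟩ := hCHB
  filter_upwards [hTGP (1 / 11 - δ₁) (by linarith) (by linarith) (e / 2) (by linarith),
    hSEC c₀ hc0 (e / 2) (by linarith),
    params2 (1 / 11 - δ₁) δ₁ (by linarith) (by linarith) hd0, hchb, ev_const δ₁ (1 / b) hd0,
    eventually_ge_atTop N] with n hna hnb hp hnc hXb hnN
  obtain ⟨p1, p2, p3, p4, p5, p6, p7, p8, p9⟩ := hp
  obtain ⟨E, hE1, hE2, hE3⟩ := hE n hnN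
  have hn : (400 : ℝ) ≤ n := by exact_mod_cast p1
  have hn0 : (0 : ℝ) < n := by linarith
  have hε1 : (n : ℝ) ^ (-(1 / 4) : ℝ) ≤ 1 :=
    Real.rpow_le_one_of_one_le_of_nonpos (by linarith) (by norm_num)
  have key := one_g2 hCM hCMP (n := n) (ε := (n : ℝ) ^ (-(1 / 4) : ℝ)) (by linarith) p1 hb hb1 hnc
    E hE3 p2 p3 p4 p5 p6 hXb p7 p8 (by positivity) p9
  have hexp : (n : ℝ) ^ (-(32 / 11 + δ)) ≤
      (n : ℝ) ^ (1 / 11 - δ₁) / ((n : ℝ) ^ 3 * ((n : ℝ) ^ δ₁) ^ 8) := by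
    have e1 : ((n : ℝ) ^ δ₁) ^ 8 = (n : ℝ) ^ (δ₁ * 8) := by
      rw [← Real.rpow_natCast, ← Real.rpow_mul hn0.le]
      norm_num
    have e2 : (n : ℝ) ^ 3 = (n : ℝ) ^ (3 : ℝ) := by norm_cast
    rw [e1, e2, ← Real.rpow_add hn0, ← Real.rpow_sub hn0]
    apply Real.rpow_le_rpow_of_exponent_le (by linarith)
    linarith
  have hmono : (Nat.card {x : Fin 2 → Alt n // ¬ FG ((n : ℝ) ^ (-(32 / 11 + δ))) x} : ℝ) ≤
      Nat.card {x : Fin 2 → Alt n //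
        ¬ FG ((n : ℝ) ^ (1 / 11 - δ₁) / ((n : ℝ) ^ 3 * ((n : ℝ) ^ δ₁) ^ 8)) x} :=
    Nat.cast_le.mpr (RC14.card_mono _ _ fun x hx hcon => hx (FG.mono hexp hcon))
  have hb' := hnb E hE1 hE2
  linarith

end

end SG516
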