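import Pool.Agent.U516.SG.Fin
import Pool.Agent.U516.RD.Main

/-!
Project SG: any number of generators.
-/

namespace SG516
open RC14 RD516 R3516 P2516 Finset Equiv Filter Topology

noncomputable section

/-- the argument for one `n` and `2 + r` generators -/
theorem one_gk (hCM : S_CM) (hCMP : S_CMP) {n r : ℕ} {ε X Y b : ℝ} (hε : ε ≤ 2) {J M L : ℕ}
    (hn : 400 ≤ n) (hb : 0 < b) (hb1 : b ≤ 1)
    (hchb : ∀ v : Alt n, ∀ (V : Type) [NormedAddCommGroup V] [InnerProductSpace ℂ V]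
      [FiniteDimensional ℂ V] (ρ : Alt n →* (V ≃ₗᵢ[ℂ] V)), Irr ρ ⊤ → (∃ g w, ρ g w ≠ w) →
      ‖chr ρ v‖ ≤ Real.exp (-(b * #(v : Equiv.Perm (Fin n)).support / n)) * Module.finrank ℂ V)
    (E : Finset (Alt n))
    (hE3 : ∀ g ∈ E, ∃ m ≤ n, n ≤ 32 * #((g : Equiv.Perm (Fin n)) ^ m).support ∧
        8 * #((g : Equiv.Perm (Fin n)) ^ m).support ≤ n)
    (hM : 1600 ≤ M) (hL : (1 - ε / 2) ^ L * (n : ℝ) ^ 2 ≤ 1 / (16 * (n : ℝ) ^ 2)) (hLn : L ≤ n)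
    (hT : (1 - ε / 2) ^ n * ((n : ℝ) ^ M) ^ 2 ≤ 1 / 64) (h2M : 2 * M ≤ n)
    (hX1 : 12700000 ≤ X) (hXb : 1 / b ≤ X) (hXk : ((2 + r : ℕ) : ℝ) ≤ X)
    (hJX : (J : ℝ) + 2 ≤ X) (hlog : Real.log n ^ 2 ≤ X)
    (hY0 : 0 < Y) (hYM : Y ≤ 2 * M) :
    (Nat.card {x : Fin (2 + r) → Alt n // ¬ FG (Y / (n ^ 3 * X ^ 8)) x} : ℝ) ≤
      Nat.card {x : Fin (2 + r) → Alt n // ¬ ∀ s ≤ M, TGap x ε s} +
      Nat.card {y : Fin 2 → Alt n // ¬ ∃ i ≤ J, y 0 * y 1 ^ i ∈ E} *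
        (Fintype.card (Alt n) : ℝ) ^ r := by
  classical
  have h5 := R3516.card_first (G := Alt n) 2 r (fun y => ¬ ∃ i ≤ J, y 0 * y 1 ^ i ∈ E)
  have h3 : Nat.card {x : Fin (2 + r) → Alt n // ¬ FG (Y / (n ^ 3 * X ^ 8)) x} ≤
      Nat.card {x : Fin (2 + r) → Alt n // ¬ ∀ s ≤ M, TGap x ε s} +
      Nat.card {x : Fin (2 + r) → Alt n // (fun y : Fin 2 → Alt n =>
        ¬ ∃ i ≤ J, y 0 * y 1 ^ i ∈ E) (fun i => x (Fin.castAdd r i))} := by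
    rw [Nat.card_eq_fintype_card, Nat.card_eq_fintype_card, Nat.card_eq_fintype_card,
      Fintype.card_subtype, Fintype.card_subtype, Fintype.card_subtype]
    have h4 : (univ.filter fun x : Fin (2 + r) → Alt n => ¬ FG (Y / (n ^ 3 * X ^ 8)) x) ⊆
        (univ.filter fun x : Fin (2 + r) → Alt n => ¬ ∀ s ≤ M, TGap x ε s) ∪
        (univ.filter fun x : Fin (2 + r) → Alt n => (fun y : Fin 2 → Alt n =>
          ¬ ∃ i ≤ J, y 0 * y 1 ^ i ∈ E) (fun i => x (Fin.castAdd r i))) := by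
      intro x hx
      rw [mem_filter] at hx
      rw [mem_union, mem_filter, mem_filter]
      by_contra hcon
      push Not at hcon
      apply hx.2
      obtain ⟨hA, hB⟩ := hcon
      have hA' := hA (mem_univ _)
      obtain ⟨i, hi, hw⟩ := hB (mem_univ _)
      have hgw : ((x (Fin.castAdd r 0) * x (Fin.castAdd r 1) ^ i : Alt n) :
          Equiv.Perm (Fin n)) ∈ PB x (1 + J) := by
        rw [Subgroup.coe_mul, Subgroup.coe_pow]
        exact PB.mul (PB.gen _) (PB.mono (by omega) (PB.pow (PB.gen _) i))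
      obtain ⟨ℓ, g1, ⟨v, hv, g2, g3⟩, g4⟩ := det2g hCM (by omega) hε hn hA' hM hL hT h2M hgw
        (hE3 _ hw)
      have hn1 : (1 : ℝ) ≤ n := by
        have : 1 ≤ n := by omega
        exact_mod_cast this
      have hX0 : (0 : ℝ) < X := by linarith
      have hJ0 : (0 : ℝ) ≤ J := Nat.cast_nonneg _
      have hLn' : (L : ℝ) ≤ n := by exact_mod_cast hLn
      have hℓ : (((ℓ + 2 * n : ℕ)) : ℝ) ≤ 520 * n * X ^ 2 := by
        push_cast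
        have h5 : (n : ℝ) * (1 + J) + 2 * L ≤ 2 * n * X := by nlinarith
        have h6 : (0 : ℝ) ≤ Real.log n ^ 2 := sq_nonneg _
        have h7 : 256 * ((n : ℝ) * (1 + J) + 2 * L) * Real.log n ^ 2 ≤
            256 * (2 * n * X) * X := by
          gcongr
        have h8 : (n : ℝ) ≤ n * X ^ 2 := by
          have : (1 : ℝ) ≤ X ^ 2 := one_le_pow₀ (by linarith)
          nlinarith
        nlinarith
      have hs : Y ≤ 1024 * (#v.support : ℝ) := by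
        have : (M : ℝ) ≤ 512 * (#v.support : ℝ) := by exact_mod_cast g2
        linarith
      refine FG.mono (numg (k := 2 + r) hb (by omega) (by omega) hX1 hXb hXk hY0 hs
        (Nat.cast_nonneg _) hℓ ?_) (fg_of hCMP hb hb1 (by omega) hchb g4 hv g3 (by omega))
      have : 0 < ℓ + 2 * n := by omega
      exact_mod_cast this
    exact (card_le_card h4).trans (card_union_le _ _)
  rw [h5] at h3
  exact_mod_cast h3

/-- many generators: the gap is at least `n ^ (- 2 - δ)` -/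
theorem mainGMany (hST : S_ST) (hCM : S_CM) (hSEC : S_SEC) (hCHB : S_CHB)
    (hCMP : S_CMP) (δ : ℝ) (hδ : 0 < δ) : ∃ k₀ : ℕ, 2 ≤ k₀ ∧ ∀ k ≥ k₀, ∀ e : ℝ, 0 < e →
      ∀ᶠ n : ℕ in atTop,
      (Nat.card {x : Fin k → Alt n // ¬ FG ((n : ℝ) ^ (-(2 + δ))) x} : ℝ) ≤
        e * (Fintype.card (Alt n) : ℝ) ^ k := by
  obtain ⟨δ₁, hd0, hd1, hd2⟩ : ∃ δ₁ : ℝ, 0 < δ₁ ∧ δ₁ ≤ 1 / 4 ∧ 9 * δ₁ ≤ δ := by
    refine ⟨min (δ / 9) (1 / 4), lt_min (by linarith) (by norm_num), min_le_right _ _, ?_⟩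
    have := min_le_left (δ / 9) (1 / 4 : ℝ)
    linarith
  obtain ⟨ka, hka⟩ := Pool.Agent.Results.MP_75608d_al.GapAllTuples.result δ₁ hd0
  obtain ⟨c₀, hc0, N, hE⟩ := hST
  obtain ⟨b, hb, hb1, hchb⟩ := hCHB
  refine ⟨ka + 2, by omega, fun K hK e he => ?_⟩
  obtain ⟨r, rfl⟩ : ∃ r, K = 2 + r := ⟨K - 2, by omega⟩
  obtain ⟨εa, hεa, hta⟩ := hka (2 + r) (by omega)
  set ε : ℝ := min εa 1 with hε
  have h1 : 0 < ε := lt_min hεa one_pos
  have h2 : ε ≤ 1 := min_le_right _ _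
  have h3 : ε ≤ εa := min_le_left _ _
  have hba := bad_of_tendsto _ hta (e / 2) (by linarith)
  filter_upwards [hba, hSEC c₀ hc0 (e / 2) (by linarith),
    paramsK (1 - δ₁) δ₁ (by linarith) (by linarith) hd0 ε h1 h2 1 one_pos le_rfl 1 1 one_pos
      one_pos 1 one_pos, hchb, ev_const δ₁ (1 / b) hd0, ev_const δ₁ ((2 + r : ℕ) : ℝ) hd0,
    ev_log 0 δ₁ 2 hd0, ev_const δ₁ 4 hd0, ev_le δ₁ 1 1 (by linarith),
    eventually_ge_atTop N] with n hna hnb hp hnc hXb hXr hl1 hl2 hl3 hnN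
  rw [Real.rpow_zero, mul_one] at hl1
  rw [Real.rpow_one, one_mul] at hl3
  obtain ⟨p1, p2, p3, p4, p5, p6, p7, p8, p9, -⟩ := hp
  obtain ⟨E, hE1, hE2, hE3⟩ := hE n hnN
  have hn : (400 : ℝ) ≤ n := by exact_mod_cast p1
  have hn0 : (0 : ℝ) < n := by linarith
  have hlogn : 0 < Real.log n := Real.log_pos (by linarith)
  have hJ : (⌊Real.log n⌋₊ : ℝ) + 2 ≤ (n : ℝ) ^ δ₁ := by
    have := Nat.floor_le hlogn.le
    linarith
  have hLn : ⌊(n : ℝ) ^ δ₁⌋₊ ≤ n := by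
    have : (⌊(n : ℝ) ^ δ₁⌋₊ : ℝ) ≤ n := p7.trans hl3
    exact_mod_cast this
  have key := one_gk hCM hCMP (n := n) (r := r) (ε := ε) (by linarith) p1 hb hb1 hnc
    E hE3 p2 p3 hLn p4 p5 p6 hXb hXr hJ p8 (by positivity) p9
  have hexp : (n : ℝ) ^ (-(2 + δ)) ≤
      (n : ℝ) ^ (1 - δ₁) / ((n : ℝ) ^ 3 * ((n : ℝ) ^ δ₁) ^ 8) := by
    have e1 : ((n : ℝ) ^ δ₁) ^ 8 = (n : ℝ) ^ (δ₁ * 8) := by
      rw [← Real.rpow_natCast, ← Real.rpow_mul hn0.le]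
      norm_num
    have e2 : (n : ℝ) ^ 3 = (n : ℝ) ^ (3 : ℝ) := by norm_cast
    rw [e1, e2, ← Real.rpow_add hn0, ← Real.rpow_sub hn0]
    apply Real.rpow_le_rpow_of_exponent_le (by linarith)
    linarith
  have hmono : (Nat.card {x : Fin (2 + r) → Alt n // ¬ FG ((n : ℝ) ^ (-(2 + δ))) x} : ℝ) ≤
      Nat.card {x : Fin (2 + r) → Alt n //
        ¬ FG ((n : ℝ) ^ (1 - δ₁) / ((n : ℝ) ^ 3 * ((n : ℝ) ^ δ₁) ^ 8)) x} :=
    Nat.cast_le.mpr (RC14.card_mono _ _ fun x hx hcon => hx (FG.mono hexp hcon))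
  have hA : (Nat.card {x : Fin (2 + r) → Alt n //
      ¬ ∀ s ≤ ⌊(n : ℝ) ^ (1 - δ₁)⌋₊, TGap x ε s} : ℝ) ≤
      e / 2 * (Fintype.card (Alt n) : ℝ) ^ (2 + r) := by
    refine le_trans ?_ hna
    refine Nat.cast_le.mpr (RC14.card_mono _ _ fun x hx hcon => hx ?_)
    intro s hs
    exact tgap_mono h3 (hcon.2 s hs)
  have hb' := mul_le_mul_of_nonneg_right (hnb E hE1 hE2)
    (show (0 : ℝ) ≤ (Fintype.card (Alt n) : ℝ) ^ r by positivity)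
  have e3 : e / 2 * (Fintype.card (Alt n) : ℝ) ^ 2 * (Fintype.card (Alt n) : ℝ) ^ r =
      e / 2 * (Fintype.card (Alt n) : ℝ) ^ (2 + r) := by
    rw [pow_add]; ring
  rw [e3] at hb'
  linarith

end

end SG516
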