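import Pool.Agent.U516.SG.FinK

/-!
Project SG: every fixed number `k ≥ 3` of generators.
-/

namespace SG516
open RC14 RD516 R3516 P2516 Finset Equiv Filter Topology

noncomputable section

/-- every fixed `k ≥ 3`: the gap is at least `n ^ (- (3 - c_k) - δ)` -/
theorem mainGK (hST : S_ST) (hCM : S_CM) (hAM : S_AMQ) (hTR : S_TR) (hFF : S_FF) (hNU : S_NUQ)
    (hSEC : S_SEC) (hCHB : S_CHB) (hCMP : S_CMP) (k : ℕ) (hk : 3 ≤ k) (δ : ℝ) (hδ : 0 < δ) :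
    ∀ e : ℝ, 0 < e → ∀ᶠ n : ℕ in atTop, (Nat.card {x : Fin k → Alt n //
      ¬ FG ((n : ℝ) ^ (-(3 - min (((k : ℝ) - 2) / (2 * (k + 1))) (((k : ℝ) - 2) / (3 * (k - 1))) +
        δ))) x} : ℝ) ≤ e * (Fintype.card (Alt n) : ℝ) ^ k := by
  intro e he
  have hk3 : (3 : ℝ) ≤ k := by exact_mod_cast hk
  set κ₀ : ℝ := min (((k : ℝ) - 2) / (2 * (k + 1))) (((k : ℝ) - 2) / (3 * (k - 1))) with hκ₀
  have hκ0 : 0 < κ₀ := lt_min (div_pos (by linarith) (by linarith))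
    (div_pos (by linarith) (by linarith))
  have hκ1 : κ₀ < 1 := by
    refine (min_le_left _ _).trans_lt ?_
    rw [div_lt_one (by positivity)]
    linarith
  obtain ⟨δ₁, hd0, hd1, hd2, hd4⟩ : ∃ δ₁ : ℝ, 0 < δ₁ ∧ δ₁ < κ₀ ∧ 9 * δ₁ ≤ δ ∧ δ₁ ≤ 1 / 4 := by
    refine ⟨min (min (δ / 9) (κ₀ / 2)) (1 / 4), lt_min (lt_min (by linarith) (by linarith))
      (by norm_num), ?_, ?_, min_le_right _ _⟩
    · exact ((min_le_left _ _).trans (min_le_right _ _)).trans_lt (by linarith)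
    · have := (min_le_left (min (δ / 9) (κ₀ / 2)) (1 / 4 : ℝ)).trans (min_le_left _ _)
      linarith
  obtain ⟨ε, h1, h2, hgap⟩ := tgapK hAM hTR hFF hNU k hk (κ₀ - δ₁) (by linarith)
    (lt_of_lt_of_le (by linarith) (min_le_left _ _))
    (lt_of_lt_of_le (by linarith) (min_le_right _ _))
  obtain ⟨c₀, hc0, N, hE⟩ := hST
  obtain ⟨b, hb, hb1, hchb⟩ := hCHB
  obtain ⟨r, hr⟩ : ∃ r, k = 2 + r := ⟨k - 2, by omega⟩
  subst hr
  filter_upwards [hgap (e / 2) (by linarith), hSEC c₀ hc0 (e / 2) (by linarith),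
    paramsK (κ₀ - δ₁) δ₁ (by linarith) (by linarith) hd0 ε h1 h2 1 one_pos le_rfl 1 1 one_pos
      one_pos 1 one_pos, hchb, ev_const δ₁ (1 / b) hd0, ev_const δ₁ ((2 + r : ℕ) : ℝ) hd0,
    ev_log 0 δ₁ 2 hd0, ev_const δ₁ 4 hd0, ev_le δ₁ 1 1 (by linarith),
    eventually_ge_atTop N] with n hna hnb hp hnc hXb hXr hl1 hl2 hl3 hnN
  rw [Real.rpow_zero, mul_one] at hl1
  rw [Real.rpow_one, one_mul] at hl3
  obtain ⟨p1, p2, p3, p4, p5, p6, p7, p8, p9, -⟩ := hp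
  obtain ⟨E, hE1, hE2, hE3⟩ := hE n hnN
  have hn : (400 : ℝ) ≤ n := by exact_mod_cast p1
  have hn0 : (0 : ℝ) < n := by linarith
  have hlogn : 0 < Real.log n := Real.log_pos (by linarith)
  have hJ : (⌊Real.log n⌋₊ : ℝ) + 2 ≤ (n : ℝ) ^ δ₁ := by
    have := Nat.floor_le hlogn.le
    linarith
  have hLn : ⌊(n : ℝ) ^ δ₁⌋₊ ≤ n := by
    have : (⌊(n : ℝ) ^ δ₁⌋₊ : ℝ) ≤ n := p7.trans hl3
    exact_mod_cast this
  have key := one_gk hCM hCMP (n := n) (r := r) (ε := ε) (by linarith) p1 hb hb1 hnc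
    E hE3 p2 p3 hLn p4 p5 p6 hXb hXr hJ p8 (by positivity) p9
  have hexp : (n : ℝ) ^ (-(3 - κ₀ + δ)) ≤
      (n : ℝ) ^ (κ₀ - δ₁) / ((n : ℝ) ^ 3 * ((n : ℝ) ^ δ₁) ^ 8) := by
    have e1 : ((n : ℝ) ^ δ₁) ^ 8 = (n : ℝ) ^ (δ₁ * 8) := by
      rw [← Real.rpow_natCast, ← Real.rpow_mul hn0.le]
      norm_num
    have e2 : (n : ℝ) ^ 3 = (n : ℝ) ^ (3 : ℝ) := by norm_cast
    rw [e1, e2, ← Real.rpow_add hn0, ← Real.rpow_sub hn0]
    apply Real.rpow_le_rpow_of_exponent_le (by linarith)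
    linarith
  have hmono : (Nat.card {x : Fin (2 + r) → Alt n // ¬ FG ((n : ℝ) ^ (-(3 - κ₀ + δ))) x} : ℝ) ≤
      Nat.card {x : Fin (2 + r) → Alt n //
        ¬ FG ((n : ℝ) ^ (κ₀ - δ₁) / ((n : ℝ) ^ 3 * ((n : ℝ) ^ δ₁) ^ 8)) x} :=
    Nat.cast_le.mpr (RC14.card_mono _ _ fun x hx hcon => hx (FG.mono hexp hcon))
  have hA : (Nat.card {x : Fin (2 + r) → Alt n //
      ¬ ∀ s ≤ ⌊(n : ℝ) ^ (κ₀ - δ₁)⌋₊, TGap x ε s} : ℝ) ≤
      e / 2 * (Fintype.card (Alt n) : ℝ) ^ (2 + r) := by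
    refine le_trans ?_ hna
    refine Nat.cast_le.mpr (RC14.card_mono _ _ fun x hx hcon => hx ?_)
    intro s hs
    exact tgap_mono le_rfl (hcon.2 s hs)
  have hb' := mul_le_mul_of_nonneg_right (hnb E hE1 hE2)
    (show (0 : ℝ) ≤ (Fintype.card (Alt n) : ℝ) ^ r by positivity)
  have e3 : e / 2 * (Fintype.card (Alt n) : ℝ) ^ 2 * (Fintype.card (Alt n) : ℝ) ^ r =
      e / 2 * (Fintype.card (Alt n) : ℝ) ^ (2 + r) := by
    rw [pow_add]; ring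
  rw [e3] at hb'
  linarith

end

end SG516
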