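import Pool.Agent.U516.P2.Spec

/-!
Project SG (helper516), MP_8a89f5_al and MP_75608d_al: a lower bound for the FULL spectral gap of
`A_n` with random generators.  Statements of the packages.
-/

namespace SG516
open RC14 RD516 P2516 Finset Filter Topology

noncomputable section

/-- package CHB: character ratios are at most `exp (- b * support / n)` -/
def S_CHB : Prop := ∃ b : ℝ, 0 < b ∧ b ≤ 1 ∧ ∀ᶠ n : ℕ in atTop, ∀ v : Alt n,
    ∀ (V : Type) [NormedAddCommGroup V] [InnerProductSpace ℂ V] [FiniteDimensional ℂ V]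
      (ρ : Alt n →* (V ≃ₗᵢ[ℂ] V)), Irr ρ ⊤ → (∃ g w, ρ g w ≠ w) →
      ‖chr ρ v‖ ≤ Real.exp (-(b * #(v : Equiv.Perm (Fin n)).support / n)) * Module.finrank ℂ V

/-- package CMP: comparison of the walk with the class of `v` -/
def S_CMP : Prop := ∀ (n k D : ℕ) (x : Fin k → Alt n) (v : Alt n) (β : ℝ), 1 ≤ k → 0 ≤ β →
    (∀ π : Alt n, ((π * v * π⁻¹ : Alt n) : Equiv.Perm (Fin n)) ∈ PB x D) →
    (∀ (V : Type) [NormedAddCommGroup V] [InnerProductSpace ℂ V] [FiniteDimensional ℂ V]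
      (ρ : Alt n →* (V ≃ₗᵢ[ℂ] V)), Irr ρ ⊤ → (∃ g w, ρ g w ≠ w) →
      ‖chr ρ v‖ ≤ β * Module.finrank ℂ V) →
    ∀ f : Alt n → ℝ, ∑ g, f g = 0 →
      ∑ g, f g * ((∑ i, (f (g * x i) + f (g * (x i)⁻¹))) / (2 * k)) ≤
        (1 - (1 - β) / (k * (D : ℝ) ^ 2)) * ∑ g, f g ^ 2

end

end SG516
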